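import Pool.Agent.L5helper28.HD.Defs
import Pool.Agent.Y121.AHS.CDefs

/-!
# Absolutely Hodge classes: definitions
-/

set_option autoImplicit false

universe u

namespace Pool.Agent.L5helper28.HD

open Pool.Agent.H914
open Pool.Agent.Y121.AHS (HodgeTheory IsHodge)
open Pool.Agent.Y121.AHS.Full (Conjugates IsAbsHodge)

variable {k : Type u} [Field k] {𝒱 : VarClass k} {ops : CycleOps 𝒱} {T : HodgeTheory ops}
  (D : Conjugates T)

/-- All Hodge classes of degree `2 j` on `X` are absolutely Hodge. -/
def AllAbsoluteIn (X : 𝒱.Obj) (j : ℕ) : Prop := ∀ c, IsHodge T X j c → IsAbsHodge D X j c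

/-- All Hodge classes on `X` are absolutely Hodge. -/
def AllAbsolute (X : 𝒱.Obj) : Prop := ∀ j, AllAbsoluteIn D X j

end Pool.Agent.L5helper28.HD
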