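import Pool.Agent.L5helper28.HD.Defs
import Pool.Agent.R920.MT.Defs

/-!
# Motivated classes: definitions
-/

set_option autoImplicit false

universe u

namespace Pool.Agent.L5helper28.HD

/-- The element `c` is a linear combination of products `p a * q b`, where `a` has the property `S`
and `b` has the property `S'`. -/
def SumOfProducts {K A B C : Type} [Field K] [Ring A] [Algebra K A] [Ring B] [Algebra K B] [Ring C]
    [Algebra K C] (p : A →ₐ[K] C) (q : B →ₐ[K] C) (S : A → Prop) (S' : B → Prop) (c : C) : Prop :=
  c ∈ Submodule.span K {x | ∃ a b, S a ∧ S' b ∧ x = p a * q b}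

open CategoryTheory AlgebraicGeometry
open Pool.Agent.H914 Pool.Agent.H914.VarClass Pool.Agent.H914.VarClass.Obj
  Pool.Agent.H914.WeilCohomology
open Pool.Agent.Y121.AHS (HodgeTheory IsHodge)
open Pool.Agent.R920.MT (IsMotivated)
open Pool.Agent.Y133.Half (pw)

variable {k : Type u} [Field k] {𝒱 : VarClass k} {ops : CycleOps 𝒱} (T : HodgeTheory ops)

/-- All Hodge classes of degree `2 j` on `X` are motivated. -/
def AllMotivatedIn (X : 𝒱.Obj) (j : ℕ) : Prop := ∀ c, IsHodge T X j c → IsMotivated T.W X j c

/-- All Hodge classes on `X` are motivated. -/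
def AllMotivated (X : 𝒱.Obj) : Prop := ∀ j, AllMotivatedIn T X j

/-- The Mumford-Tate group of `H(X)` is the motivic Galois group of the motive of `X`: all Hodge
classes on all powers of `X` are motivated. -/
def MumfordTateIsMotivic (X : 𝒱.Obj) : Prop := ∀ n, AllMotivated T (pw X n)

/-- The class `c` is motivated. -/
def IsMotivatedClass (X : 𝒱.Obj) (c : T.W.H X) : Prop := ∃ j, IsMotivated T.W X j c

/-- Every class on `P × Y` with the property `C` is a linear combination of products of classes on
`P` and `Y` with this property. -/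
def Kunneth (P Y : 𝒱.Obj) (C : ∀ X : 𝒱.Obj, T.W.H X → Prop) : Prop :=
  ∀ c, C (P.prod Y) c → SumOfProducts (T.W.map (fst P Y)) (T.W.map (snd P Y)) (C P) (C Y) c

end Pool.Agent.L5helper28.HD
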