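import Pool.Agent.L5helper28.CA.Bridge2
import Pool.Agent.L5helper28.HD.AbsDefs
import Pool.Agent.L5helper28.HD.MotDefs

/-!
# The theorems in terms of the new definitions
-/

set_option autoImplicit false
set_option linter.unusedSectionVars false

open CategoryTheory AlgebraicGeometry TensorProduct

universe u v

namespace Pool.Agent.L5helper28.HD

open Module
open Pool.Agent.H914 Pool.Agent.H914.VarClass Pool.Agent.H914.VarClass.Obj
  Pool.Agent.H914.WeilCohomology
open Pool.Agent.Y121 Pool.Agent.Y121.AHS Pool.Agent.N996 Pool.Agent.N996.FP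
open Pool.Agent.Y133.Half (pw ClassPred)
open Pool.Agent.R920.MT (IsMotivated motPred)
open Pool.Agent.L5helper28.CA (AllIn prod_in snd_in split_in sum_of)
open Pool.Agent.L5helper28.IF (Spl)

noncomputable section

variable {k : Type u} [Field k] {𝒱 : VarClass k} {ops : CycleOps 𝒱} {T : HodgeTheory ops}
  {P Y X : 𝒱.Obj}

/-! ### Polarisations -/

section Pol

variable {K A : Type} [Field K] [Algebra K ℂ] [Ring A] [Algebra K A]

theorem exists_el (x : Ext K ℂ A) : ∃ (m : ℕ) (z : Fin m → ℂ) (a : Fin m → A), x = el z a := by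
  have key : ∀ x : ℂ ⊗[K] A, ∃ (m : ℕ) (z : Fin m → ℂ) (a : Fin m → A),
      x = ∑ i, z i ⊗ₜ[K] a i := by
    intro x
    induction x using TensorProduct.induction_on with
    | zero => exact ⟨0, 0, 0, by simp⟩
    | tmul z a => exact ⟨1, fun _ => z, fun _ => a, by simp⟩
    | add x y hx hy =>
      obtain ⟨m, z, a, rfl⟩ := hx
      obtain ⟨n, w, b, rfl⟩ := hy
      refine ⟨m + n, Fin.append z w, Fin.append a b, ?_⟩
      rw [Fin.sum_univ_add]
      simp
  obtain ⟨m, z, a, h⟩ := key x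
  refine ⟨m, z, a, ?_⟩
  refine h.trans ?_
  refine Finset.sum_congr rfl fun i _ => ?_
  change _ = z i • ((1 : ℂ) ⊗ₜ[K] a i)
  rw [TensorProduct.smul_tmul', smul_eq_mul, mul_one]

theorem conj_el (h : BP.IsRat K) {m : ℕ} (z : Fin m → ℂ) (a : Fin m → A) :
    BP.extConj h (el z a) = el (fun i => star (z i)) a := by
  have h1 : ∀ {m : ℕ} (z : Fin m → ℂ) (a : Fin m → A),
      (el z a : Ext K ℂ A) = (∑ i, z i ⊗ₜ[K] a i : ℂ ⊗[K] A) := by
    intro m z a
    refine Finset.sum_congr rfl fun i _ => ?_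
    change z i • ((1 : ℂ) ⊗ₜ[K] a i) = _
    rw [TensorProduct.smul_tmul', smul_eq_mul, mul_one]
  rw [h1, h1]
  change TensorProduct.map (BP.conjK h) (LinearMap.id : A →ₗ[K] A)
    (∑ i, z i ⊗ₜ[K] a i : ℂ ⊗[K] A) = _
  rw [map_sum]
  refine Finset.sum_congr rfl fun i _ => ?_
  rw [TensorProduct.map_tmul]
  rfl

theorem bil_el (ψ : LinearMap.BilinForm K A) {m n : ℕ} (z : Fin m → ℂ) (a : Fin m → A)
    (w : Fin n → ℂ) (b : Fin n → A) : BP.extBil ψ (el z a) (el w b) = form ψ z a w b := by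
  have h1 : ∀ {m : ℕ} (z : Fin m → ℂ) (a : Fin m → A),
      (el z a : Ext K ℂ A) = (∑ i, z i ⊗ₜ[K] a i : ℂ ⊗[K] A) := by
    intro m z a
    refine Finset.sum_congr rfl fun i _ => ?_
    change z i • ((1 : ℂ) ⊗ₜ[K] a i) = _
    rw [TensorProduct.smul_tmul', smul_eq_mul, mul_one]
  rw [h1, h1]
  change (LinearMap.BilinForm.baseChange ℂ ψ : LinearMap.BilinForm ℂ (ℂ ⊗[K] A))
    (∑ i, z i ⊗ₜ[K] a i : ℂ ⊗[K] A) (∑ i, w i ⊗ₜ[K] b i : ℂ ⊗[K] A) = _
  rw [LinearMap.map_sum₂]
  refine Finset.sum_congr rfl fun i _ => ?_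
  rw [map_sum]
  refine Finset.sum_congr rfl fun j _ => ?_
  rw [LinearMap.BilinForm.baseChange_tmul, Algebra.smul_def]
  ring

end Pol

theorem isPolarisation_of {ψ : LinearMap.BilinForm T.W.K (T.W.H X)}
    (h : HD.IsPolarisation (coh T X) ψ) : FP.IsPolarisation T X ψ where
  range := fun p q x hx h0 => h.range p q x hx h0
  conj := fun p q x hx => by
    obtain ⟨m, z, a, rfl⟩ := exists_el (K := T.W.K) (A := T.W.H X) x
    have h1 := h.conj p q m z a hx
    rw [← conj_el T.rat] at h1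
    exact h1
  orth := fun p q r s x y hx hy hn => by
    obtain ⟨m, z, a, rfl⟩ := exists_el (K := T.W.K) (A := T.W.H X) x
    obtain ⟨n, w, b, rfl⟩ := exists_el (K := T.W.K) (A := T.W.H X) y
    exact (bil_el (K := T.W.K) (A := T.W.H X) ψ z a w b).trans (h.orth p q r s m n z a w b hx hy hn)
  pos := fun p q x hx h0 => by
    obtain ⟨m, z, a, rfl⟩ := exists_el (K := T.W.K) (A := T.W.H X) x
    obtain ⟨r, hr, h1⟩ := h.pos p q m z a hx h0
    refine ⟨r, hr, ?_⟩
    rw [← h1]
    refine congrArg (fun t => Complex.I ^ (p - q) * t) ?_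
    have h2 : conjH T (el (K := T.W.K) (A := T.W.H X) z a) = el (K := T.W.K) (A := T.W.H X) (fun i => star (z i)) a :=
      conj_el (K := T.W.K) (A := T.W.H X) T.rat z a
    rw [h2]
    exact bil_el (K := T.W.K) (A := T.W.H X) ψ z a (fun i => star (z i)) a

theorem polarised_of (h : Polarised (coh T X)) : CA.Polarised T X := by
  obtain ⟨ψ, hψ⟩ := h
  exact ⟨ψ, isPolarisation_of hψ⟩

/-! ### Independent families -/

theorem inHodgeLie_iff {n : ℕ} {X : Fin n → 𝒱.Obj} {D : Tup fun a => coh T (X a)} :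
    InHodgeLie D ↔ Fam.InHodgeLie (fun a => T.pq (X a)) D := Iff.rfl

theorem independent_iff {ι : Type v} {X : ι → 𝒱.Obj} :
    Independent (fun i => coh T (X i)) ↔ Fam.Independent T X := Iff.rfl

theorem curves_iff {ι : Type v} {X : ι → 𝒱.Obj} :
    NonIsogenousCurves (fun i => coh T (X i)) ↔ Fam.NonIsogenousCurves T X := Iff.rfl

theorem pairwise_of {ι : Type v} {X : ι → 𝒱.Obj} (h : PairwiseIndependent fun i => coh T (X i)) :
    CA.PairwiseIndependent T X :=
  ⟨fun i I h1 h2 => h.1 i I h1 h2, fun e he D hD => h.2 e he D hD⟩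

theorem built_of {S : Set 𝒱.Obj} (h : Built T S X) : Fam.Built T S X := by
  induction h with
  | of h => exact .of h
  | prod _ _ h1 h2 => exact .prod h1 h2
  | gen _ h2 h1 =>
    obtain ⟨f, c, h3, h4⟩ := h2
    exact .gen _ _ f c h1 h3 h4

/-- all three kinds of families -/
theorem splitting {ι : Type v} {X : ι → 𝒱.Obj} (hX : ∀ i, Polarised (coh T (X i)))
    (h : Independent (fun i => coh T (X i)) ∨ NonIsogenousCurves (fun i => coh T (X i)) ∨
      PairwiseIndependent fun i => coh T (X i)) {Z : 𝒱.Obj}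
    (hZ : Polarised (coh T Z)) : ∃ S : Set ι, S.Finite ∧ 2 * S.ncard ≤ trans T Z ∧
      ∀ P Y : 𝒱.Obj, Built T (X '' Sᶜ) P → Built T (insert Z (X '' S)) Y → Spl T P Y := by
  obtain ⟨S, h1, h2, h3⟩ := CA.splitting (T := T) (X := X) (fun i => polarised_of (hX i))
    (by
      rcases h with h | h | h
      · exact .inl (independent_iff.1 h)
      · exact .inr (.inl (curves_iff.1 h))
      · exact .inr (.inr (pairwise_of h))) (polarised_of hZ)
  exact ⟨S, h1, h2, fun P Y hP hY => h3 P Y (built_of hP) (built_of hY)⟩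

end

end Pool.Agent.L5helper28.HD
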