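import Pool.Agent.Y121.AHS.Defs

/-!
# Algebras with a Hodge decomposition: definitions
-/

universe u v

namespace Pool.Agent.L5helper28.HD

open Pool.Agent.Y121.AHS (Ext extMap extSm extEm)

section

variable {K A B : Type} [Field K] [Ring A] [Algebra K A] [Ring B] [Algebra K B]

/-- The linear maps. -/
abbrev Lin (K A B : Type) [Field K] [Ring A] [Algebra K A] [Ring B] [Algebra K B] : Type :=
  A →ₗ[K] B

/-- The commutator. -/
def commutator (D E : Lin K A A) : Lin K A A := D ∘ₗ E - E ∘ₗ D

/-- The linear combination `r D + s E`. -/
def combination (r s : K) (D E : Lin K A A) : Lin K A A := r • D + s • E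

/-- The ring `A` is not zero. -/
def IsNonzero (A : Type) [Ring A] : Prop := (1 : A) ≠ 0

/-- The bilinear forms. -/
abbrev Form (K A : Type) [Field K] [Ring A] [Algebra K A] : Type := LinearMap.BilinForm K A

/-- The dimension of the subspace `V`. -/
noncomputable def dimension (V : Submodule K A) : ℕ := Module.finrank K V

/-- The linear map `f` is zero on `V`. -/
def VanishesOn (f : Lin K A B) (V : Submodule K A) : Prop := ∀ x ∈ V, f x = 0

/-- The image of `f`. -/
def image (f : Lin K A B) : Set B := Set.range f

/-- The algebra `B` is generated by the set `s`. -/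
def GeneratedBy (K : Type) {B : Type} [Field K] [Ring B] [Algebra K B] (s : Set B) : Prop :=
  Algebra.adjoin K s = ⊤

/-- The codimension of the subspace spanned by the elements with the property `S`. -/
noncomputable def codim (K : Type) {A : Type} [Field K] [Ring A] [Algebra K A] (S : A → Prop) : ℕ :=
  Module.finrank K (A ⧸ Submodule.span K {c | S c})

variable [Algebra K ℂ]

/-- The element `x` of the complexification belongs to the subspace `V`. -/
def Mem (V : Submodule ℂ (Ext K ℂ A)) (x : Ext K ℂ A) : Prop := x ∈ V

/-- The element `x` of the complexification is not zero. -/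
def Nonzero (x : Ext K ℂ A) : Prop := x ≠ 0

/-- The element `∑ z i ⊗ a i` of the complexification. -/
noncomputable def el {m : ℕ} (z : Fin m → ℂ) (a : Fin m → A) : Ext K ℂ A :=
  ∑ i, extSm K ℂ (z i) (extEm K ℂ (a i))

/-- The number `∑ z i w j ψ (a i, b j)`: the value of the complexification of the bilinear form `ψ` on
the elements `∑ z i ⊗ a i` and `∑ w j ⊗ b j`. -/
noncomputable def form (ψ : Form K A) {m n : ℕ} (z : Fin m → ℂ)
    (a : Fin m → A) (w : Fin n → ℂ) (b : Fin n → A) : ℂ :=
  ∑ i, ∑ j, z i * w j * algebraMap K ℂ (ψ (a i) (b j))

end

variable {K : Type} [Field K] [Algebra K ℂ]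

/-- A graded algebra `A` over the field `K` with subspaces `pq p q` of its complexification and a
number `dim`: in the intended use `A = H(X, ℚ)` for a smooth projective complex variety `X`, `pq p q`
is the space of the classes of type `(p, q)` and `dim` is the dimension of `X`. -/
structure Alg (K : Type) [Field K] [Algebra K ℂ] where
  A : Type
  [ring : Ring A]
  [alg : Algebra K A]
  gr : ℕ → Submodule K A
  pq : ℤ → ℤ → Submodule ℂ (Ext K ℂ A)
  dim : ℕ

attribute [instance] Alg.ring Alg.alg

/-- The linear maps. -/
abbrev Maps (M N : Alg K) : Type := Lin K M.A N.A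

/-- The complexification. -/
abbrev Cx (M : Alg K) : Type := Ext K ℂ M.A

/-- The element `x` of the complexification is of type `(p, q)`. -/
def IsType (M : Alg K) (p q : ℤ) (x : Cx M) : Prop := Mem (M.pq p q) x

/-- The rational bilinear form `ψ` is a polarisation: there are only the types `(p, q)` with
`0 ≤ p, q ≤ dim`, the complex conjugation exchanges the types `(p, q)` and `(q, p)`, the complexification
of `ψ` vanishes on pairs of elements of types `(p, q)` and `(r, s) ≠ (q, p)`, and `i ^ (p - q) ψ(x, x̄)`
is a positive real number for all nonzero `x` of type `(p, q)`. -/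
structure IsPolarisation (M : Alg K) (ψ : Form K M.A) : Prop where
  range : ∀ p q x, IsType M p q x → Nonzero x → 0 ≤ p ∧ p ≤ M.dim ∧ 0 ≤ q ∧ q ≤ M.dim
  conj : ∀ (p q : ℤ) (m : ℕ) (z : Fin m → ℂ) (a : Fin m → M.A), IsType M p q (el z a) →
    IsType M q p (el (fun i => star (z i)) a)
  orth : ∀ (p q r s : ℤ) (m n : ℕ) (z : Fin m → ℂ) (a : Fin m → M.A) (w : Fin n → ℂ)
    (b : Fin n → M.A), IsType M p q (el z a) → IsType M r s (el w b) → (r ≠ q ∨ s ≠ p) →
    form ψ z a w b = 0
  pos : ∀ (p q : ℤ) (m : ℕ) (z : Fin m → ℂ) (a : Fin m → M.A), IsType M p q (el z a) →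
    Nonzero (K := K) (el z a) →
    ∃ r : ℝ, 0 < r ∧ Complex.I ^ (p - q) * form ψ z a (fun i => star (z i)) a = r

/-- There is a polarisation. -/
def Polarised (M : Alg K) : Prop := ∃ ψ, IsPolarisation M ψ

/-- The linear combination with the complex coefficients `c i` of the maps `f i` acts on the elements
of type `(p, q)` of the complexification as multiplication by `p - q`. -/
def ActsAsHodge (M : Alg K) {m : ℕ} (c : Fin m → ℂ) (f : Fin m → Maps M M) : Prop :=
  ∀ (p q : ℤ) (x : Cx M), IsType M p q x →
    ∑ i, extSm K ℂ (c i) (extMap K ℂ (f i) x) = extSm K ℂ ((p - q : ℤ) : ℂ) x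

/-- The tuples of linear maps. -/
abbrev Tup {n : ℕ} (M : Fin n → Alg K) : Type := ∀ a, Maps (M a) (M a)

variable {n : ℕ} {M : Fin n → Alg K}

/-- The tuples with the property `g` form a rational Lie algebra: `g` is not empty and closed under
commutators and linear combinations. -/
def IsLie (g : Tup M → Prop) : Prop :=
  (∃ D, g D) ∧ ∀ D, g D → ∀ E, g E → g (fun a => commutator (D a) (E a)) ∧
    ∀ r s : K, g fun a => combination r s (D a) (E a)

/-- Some linear combination with complex coefficients of elements of `g` acts on the elements of
type `(p, q)` of the complexification of every `M a` as multiplication by `p - q`. -/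
def ContainsHodge (g : Tup M → Prop) : Prop :=
  ∃ (m : ℕ) (c : Fin m → ℂ) (f : Fin m → Tup M), (∀ i, g (f i)) ∧
    ∀ a, ActsAsHodge (M a) c fun i => f i a

/-- The tuple `D` belongs to the Lie algebra of the Hodge group of `M 0 ⊕ … ⊕ M (n - 1)`: the smallest
rational Lie algebra whose complexification contains the operator which multiplies the elements
of type `(p, q)` by `p - q`. -/
def InHodgeLie (D : Tup M) : Prop := ∀ g : Tup M → Prop, IsLie g → ContainsHodge g → g D

/-- The linear map `D` belongs to the Lie algebra of the Hodge group of `M`. -/
def hodgeLie (M : Alg K) (D : Maps M M) : Prop := InHodgeLie (M := fun _ : Fin 1 => M) fun _ => D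

/-- The Lie algebra of the linear maps with the property `h` is perfect: every property of linear
maps which is closed under linear combinations and holds for the commutators of the elements of `h`
holds for all elements of `h`. -/
def IsPerfect {M : Alg K} (h : Maps M M → Prop) : Prop :=
  ∀ I : Maps M M → Prop, (∀ D, I D → ∀ E, I E → ∀ r s : K, I (combination r s D E)) →
    (∀ D, h D → ∀ E, h E → I (commutator D E)) → ∀ D, h D → I D

/-- The Lie algebra of the Hodge group of the sum of `n` different members of the family is the product
of the Lie algebras of the Hodge groups of these members. -/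
def IndependentOn {ι : Type v} (M : ι → Alg K) (n : ℕ) : Prop :=
  ∀ e : Fin n → ι, Function.Injective e → ∀ D : Tup fun a => M (e a),
    (∀ a, hodgeLie (M (e a)) (D a)) → InHodgeLie D

/-- The family is independent: the Hodge group of the sum of finitely many different members is the
product of the Hodge groups of these members. -/
def Independent {ι : Type v} (M : ι → Alg K) : Prop := ∀ n, IndependentOn M n

/-- The family is pairwise independent: the Hodge groups of the members are semisimple (their Lie
algebras are perfect), and the Hodge group of the sum of two different members is the product of the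
two Hodge groups. -/
def PairwiseIndependent {ι : Type v} (M : ι → Alg K) : Prop :=
  (∀ i, IsPerfect (hodgeLie (M i))) ∧ IndependentOn M 2

/-- The linear map `f` is a morphism of Hodge structures up to a Tate twist: it maps the elements of
type `(p, q)` to elements of type `(p + c, q + c)`. -/
def ShiftsTypes {M N : Alg K} (f : Maps M N) (c : ℤ) : Prop :=
  ∀ (p q : ℤ) (x : Cx M), IsType M p q x → IsType N (p + c) (q + c) (extMap K ℂ f x)

/-- The members of the family are elliptic curves (varieties of dimension one with first Betti
number two), and different members are not isogenous (there is no nonzero morphism of Hodge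
structures between their cohomology spaces of degree one). -/
def NonIsogenousCurves {ι : Type v} (M : ι → Alg K) : Prop :=
  (∀ i, (M i).dim = 1 ∧ dimension ((M i).gr 1) = 2) ∧
    ∀ i j, i ≠ j → ∀ f : Maps (M i) (M j), ShiftsTypes f 0 → VanishesOn f ((M i).gr 1)

/-- The algebra `N` is generated by the images of morphisms of Hodge structures (up to Tate twists)
from the algebras `M a`. -/
def Generates {n : ℕ} (M : Fin n → Alg K) (N : Alg K) : Prop :=
  ∃ (f : ∀ a, Maps (M a) N) (c : Fin n → ℤ), (∀ a, ShiftsTypes (f a) (c a)) ∧
    GeneratedBy K (⋃ a, image (f a))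

open CategoryTheory AlgebraicGeometry
open Pool.Agent.H914 Pool.Agent.H914.VarClass Pool.Agent.H914.VarClass.Obj
  Pool.Agent.H914.WeilCohomology
open Pool.Agent.Y121.AHS (HodgeTheory IsHodge)

variable {k : Type u} [Field k] {𝒱 : VarClass k} {ops : CycleOps 𝒱} (T : HodgeTheory ops)

/-- The cohomology of `X`. -/
noncomputable def coh (X : 𝒱.Obj) : Alg T.W.K where
  A := T.W.H X
  gr := T.W.gr X
  pq := T.pq X
  dim := X.dim

/-- The dimension of the cohomology of `Z` modulo the space spanned by the Hodge classes. -/
noncomputable def trans (Z : 𝒱.Obj) : ℕ := codim T.W.K fun c => ∃ j, IsHodge T Z j c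

/-- The smallest class of varieties which contains the varieties in `S`, is closed under products,
and contains all varieties whose cohomology algebra is generated by the images of morphisms of Hodge
structures (up to Tate twists) from the cohomology of finitely many varieties in the class. -/
inductive Built (S : Set 𝒱.Obj) : 𝒱.Obj → Prop
  | of {X : 𝒱.Obj} : X ∈ S → Built S X
  | prod {X Y : 𝒱.Obj} : Built S X → Built S Y → Built S (X.prod Y)
  | gen {n : ℕ} {X : Fin n → 𝒱.Obj} {Y : 𝒱.Obj} : (∀ a, Built S (X a)) →
      Generates (fun a => coh T (X a)) (coh T Y) → Built S Y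

end Pool.Agent.L5helper28.HD
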