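import Pool.Agent.L5helper28.HD.Bridge

/-!
# Absolutely Hodge classes and motivated classes: the theorems
-/

set_option autoImplicit false
set_option linter.unusedSectionVars false

open CategoryTheory AlgebraicGeometry TensorProduct

universe u v

namespace Pool.Agent.L5helper28.HD

open Module
open Pool.Agent.H914 Pool.Agent.H914.VarClass Pool.Agent.H914.VarClass.Obj
  Pool.Agent.H914.WeilCohomology
open Pool.Agent.Y121 Pool.Agent.Y121.AHS Pool.Agent.N996 Pool.Agent.N996.FP
open Pool.Agent.Y133.Half (pw ClassPred)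
open Pool.Agent.R920.MT (IsMotivated motPred)
open Pool.Agent.L5helper28.CA (AllIn prod_in snd_in split_in sum_of exists_cyc0 q_pow one_pw
  pw_prod_iff)
open Pool.Agent.L5helper28.IF (Spl)

noncomputable section

variable {k : Type u} [Field k] {𝒱 : VarClass k} {ops : CycleOps 𝒱} {T : HodgeTheory ops}
  {P Y X : 𝒱.Obj}

/-- in dimension at most three all Hodge classes are in every system which contains the Hodge
classes of degree two -/
theorem allIn_three {Q : ClassPred T.W} (h11 : ∀ c, IsHodge T Y 1 c → Q.P Y 1 c)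
    (hd : Y.dim ≤ 3) : AllIn T Q Y := by
  have hsmall : ∀ (j : ℕ) (c : T.W.H Y), j ≤ 1 → IsHodge T Y j c → Q.P Y j c := by
    intro j c hj hc
    by_cases h0 : j = 0
    · subst h0
      obtain ⟨z, hz, rfl⟩ := exists_cyc0 (X := Y) hc.1
      exact Q.cl hz
    · obtain rfl : j = 1 := by omega
      exact h11 c hc
  intro j c hc
  by_cases hj : j ≤ 1
  · exact hsmall j c hj hc
  · by_cases hjd : Y.dim < j
    · have h1 := hc.1
      rw [T.W.gr_eq_bot Y _ (by omega)] at h1
      rw [(Submodule.mem_bot _).1 h1]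
      exact Q.zero
    · obtain ⟨D, hD⟩ := (toH T).dec.polar Y
      have hj' : Y.dim - (Y.dim - j) = j := by omega
      obtain ⟨x, hx, hxc⟩ := AH.lifts_hodge (toH T) Y D hD (Y.dim - j) (by omega) c
        (by rw [hj']; exact hc)
      have h1 : Q.P Y (Y.dim - j) x := hsmall _ x (by omega) hx
      have hD1 : Q.P Y (1 * (Y.dim - 2 * (Y.dim - j)))
          (T.W.cl Y D ^ (Y.dim - 2 * (Y.dim - j))) :=
        q_pow (Q.cl hD.1) _
      have h2 := Q.mul hD1 h1
      rw [show 1 * (Y.dim - 2 * (Y.dim - j)) + (Y.dim - j) = j by omega] at h2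
      rw [← hxc]
      exact h2

theorem kunneth_of {C : ∀ X : 𝒱.Obj, T.W.H X → Prop}
    (h : ∀ c, C (P.prod Y) c → Fam.SumOfProducts (T.W.map (fst P Y)) (T.W.map (snd P Y))
      {a | C P a} {b | C Y b} c) : Kunneth T P Y C := by
  intro c hc
  refine Submodule.span_mono ?_ (h c hc)
  rintro x ⟨a, ha, b, hb, rfl⟩
  exact ⟨a, b, ha, hb, rfl⟩

/-! ### Absolutely Hodge classes -/

section Abs

variable (D : Full.Conjugates T)

theorem allAbs_iff : AllAbsolute D X ↔ AllIn T (AH.absPred (Full.toD D)) X :=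
  forall_congr' fun _ => forall_congr' fun _ => imp_congr_right fun _ =>
    Full.isAbsHodge_iff.symm

/-- The class `c` is absolutely Hodge. -/
def IsAbsolute (X : 𝒱.Obj) (c : T.W.H X) : Prop := ∃ j, Full.IsAbsHodge D X j c

/-- **The theorem on absolutely Hodge classes.** -/
theorem absolute_main {ι : Type v} (X : ι → 𝒱.Obj) (hX : ∀ i, Polarised (coh T (X i)))
    (h : Independent (fun i => coh T (X i)) ∨ NonIsogenousCurves (fun i => coh T (X i)) ∨
      PairwiseIndependent fun i => coh T (X i)) (Z : 𝒱.Obj)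
    (hZ : Polarised (coh T Z)) : ∃ S : Set ι, S.Finite ∧ 2 * S.ncard ≤ trans T Z ∧
      ∀ P Y : 𝒱.Obj, Built T (X '' Sᶜ) P → Built T (insert Z (X '' S)) Y →
        IsNonzero (T.W.H P) → AllAbsolute D P →
          Kunneth T P Y (IsAbsolute D) ∧ (AllAbsolute D (P.prod Y) ↔ AllAbsolute D Y) ∧
            (Y.dim ≤ 3 → AllAbsoluteIn D Y 1 → AllAbsolute D (P.prod Y)) := by
  obtain ⟨S, hS, h2, h3⟩ := splitting hX h hZ
  refine ⟨S, hS, h2, fun P Y hP hY h1 hPa => ?_⟩
  have hs := h3 P Y hP hY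
  have hPa' := (allAbs_iff D).1 hPa
  refine ⟨kunneth_of fun c hc => ?_, ?_, fun hd h11 => ?_⟩
  · obtain ⟨j, hc⟩ := hc
    have h4 := split_in (Q := AH.absPred (Full.toD D))
      (fun _ _ _ h => (Full.isAbsHodge_iff.1 h).1) hs hPa'
      (ClassPred.sp_of (Full.isAbsHodge_iff.2 hc))
    exact sum_of (Q := AH.absPred (Full.toD D)) (M := {a | IsAbsolute D P a})
      (N := {b | IsAbsolute D Y b}) (fun a i ha => ⟨i, Full.isAbsHodge_iff.1 ha⟩)
      (fun b i hb => ⟨i, Full.isAbsHodge_iff.1 hb⟩) h4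
  · rw [allAbs_iff, allAbs_iff]
    exact ⟨snd_in h1, prod_in hs hPa'⟩
  · rw [allAbs_iff]
    exact prod_in hs hPa' (allIn_three (fun c hc => Full.isAbsHodge_iff.2 (h11 c hc)) hd)

theorem absolute_short {ι : Type v} (X : ι → 𝒱.Obj) (hX : ∀ i, Polarised (coh T (X i)))
    (h : Independent (fun i => coh T (X i)) ∨ NonIsogenousCurves (fun i => coh T (X i)) ∨
      PairwiseIndependent fun i => coh T (X i)) (Z : 𝒱.Obj)
    (hZ : Polarised (coh T Z)) : ∃ S : Set ι, S.Finite ∧ 2 * S.ncard ≤ trans T Z ∧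
      ∀ P Y : 𝒱.Obj, Built T (X '' Sᶜ) P → Built T (insert Z (X '' S)) Y →
        IsNonzero (T.W.H P) → AllAbsolute D P →
          (AllAbsolute D (P.prod Y) ↔ AllAbsolute D Y) ∧
            (Y.dim ≤ 3 → AllAbsoluteIn D Y 1 → AllAbsolute D (P.prod Y)) := by
  obtain ⟨S, h1, h2, h3⟩ := absolute_main D X hX h Z hZ
  exact ⟨S, h1, h2, fun P Y hP hY h4 h5 => (h3 P Y hP hY h4 h5).2⟩

end Abs

/-! ### Motivated classes -/

theorem built_pw {S : Set 𝒱.Obj} (h : Built T S X) (n : ℕ) : Built T S (pw X n) := by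
  induction n with
  | zero => exact h
  | succ n ih => exact Built.prod ih h

/-- **The theorem on motivated classes.** -/
theorem motivated_main {ι : Type v} (X : ι → 𝒱.Obj) (hX : ∀ i, Polarised (coh T (X i)))
    (h : Independent (fun i => coh T (X i)) ∨ NonIsogenousCurves (fun i => coh T (X i)) ∨
      PairwiseIndependent fun i => coh T (X i)) (Z : 𝒱.Obj)
    (hZ : Polarised (coh T Z)) : ∃ S : Set ι, S.Finite ∧ 2 * S.ncard ≤ trans T Z ∧
      ∀ P Y : 𝒱.Obj, Built T (X '' Sᶜ) P → Built T (insert Z (X '' S)) Y →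
        IsNonzero (T.W.H P) → MumfordTateIsMotivic T P →
          Kunneth T P Y (IsMotivatedClass T) ∧
            (MumfordTateIsMotivic T (P.prod Y) ↔ MumfordTateIsMotivic T Y) ∧
            (Y.dim ≤ 3 → AllMotivatedIn T Y 1 → AllMotivated T (P.prod Y)) := by
  obtain ⟨S, hS, h2, h3⟩ := splitting hX h hZ
  refine ⟨S, hS, h2, fun P Y hP hY h1 hPa => ?_⟩
  have hs := h3 P Y hP hY
  have hPa' : ∀ n, AllIn T (motPred T.W) (pw P n) := hPa
  refine ⟨kunneth_of fun c hc => ?_, ⟨fun h n => ?_, fun h n => ?_⟩, fun hd h11 => ?_⟩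
  · obtain ⟨j, hc⟩ := hc
    have h4 := split_in (Q := motPred T.W) (fun X j c hc => IsMotivated.hodge (T := toH T) hc) hs
      (hPa' 0) (ClassPred.sp_of (Q := motPred T.W) hc)
    exact sum_of (Q := motPred T.W) (M := {a | IsMotivatedClass T P a})
      (N := {b | IsMotivatedClass T Y b}) (fun a i ha => ⟨i, ha⟩) (fun b i hb => ⟨i, hb⟩) h4
  · exact snd_in (one_pw h1 n) ((pw_prod_iff (Q := motPred T.W) n).1 (h n))
  · exact (pw_prod_iff (Q := motPred T.W) n).2
      (prod_in (h3 _ _ (built_pw hP n) (built_pw hY n)) (hPa' n) (h n))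
  · exact prod_in (Q := motPred T.W) hs (hPa' 0) (allIn_three (Q := motPred T.W) h11 hd)

end

end Pool.Agent.L5helper28.HD
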